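import Mathlib

/-!
Continued fractions modulo a prime with the convention `1 / 0 = 0` (inversive recursions) and
the list of transpositions which decides whether a point is in the cycle of `0` of a permutation.
-/

set_option autoImplicit false

namespace Pool.Agent.InvCF

/-- The least prime number larger than `x`. -/
noncomputable def nextPrime (x : ℕ) : ℕ := Nat.find (Nat.exists_infinite_primes (x + 1))

theorem nextPrime_prime (x : ℕ) : (nextPrime x).Prime :=
  (Nat.find_spec (Nat.exists_infinite_primes (x + 1))).2

theorem lt_nextPrime (x : ℕ) : x < nextPrime x :=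
  (Nat.find_spec (Nat.exists_infinite_primes (x + 1))).1

/-- The recursion `u_0 = 0`, `u_(t+1) = b t + 1 / u_t` modulo `p`, with `1 / 0 = 0`. -/
def cf (p : ℕ) (b : ℕ → ℕ) : ℕ → ZMod p
  | 0 => 0
  | t + 1 => (b t : ZMod p) + (cf p b t)⁻¹

/-- The transposition of `a` and `b`. -/
def sw (a b x : ℕ) : ℕ := if x = a then b else if x = b then a else x

/-- The image of `x` under the transpositions `(α j, β j)`, `j < k`, applied one after the
other. -/
def run (α β : ℕ → ℕ) (x : ℕ) : ℕ → ℕ
  | 0 => x
  | k + 1 => sw (α k) (β k) (run α β x k)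

/-- The `M` rounds: first entries of the transpositions. Round `i` consists of `(a, M + π a)` for
`a < M`, then `(a, M + a)` for `a < M`, then `(T, 2 * M + i)`. -/
def fa (M T k : ℕ) : ℕ :=
  if k % (2 * M + 1) < M then k % (2 * M + 1) else
    if k % (2 * M + 1) < 2 * M then k % (2 * M + 1) - M else T

/-- The `M` rounds: second entries of the transpositions. -/
def fb (M : ℕ) (π : ℕ → ℕ) (k : ℕ) : ℕ :=
  if k % (2 * M + 1) < M then M + π (k % (2 * M + 1)) else
    if k % (2 * M + 1) < 2 * M then k % (2 * M + 1) else 2 * M + k / (2 * M + 1)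

/-- The number of transpositions in the `M` rounds. -/
def len1 (M : ℕ) : ℕ := M * (2 * M + 1)

/-- The number of all transpositions. -/
def len (M : ℕ) : ℕ := 3 * len1 M + M + 1

/-- First entries of all transpositions: the rounds; `(a, 3 * M + a)` for `a < M`; the rounds
backwards; the rounds shifted by `3 * M` backwards; `(3 * M, 1)`. -/
def pa (M T k : ℕ) : ℕ :=
  if k < len1 M then fa M T k else
  if k < len1 M + M then k - len1 M else
  if k < 2 * len1 M + M then fa M T (2 * len1 M + M - 1 - k) else
  if k < 3 * len1 M + M then 3 * M + fa M T (3 * len1 M + M - 1 - k) else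
  3 * M

/-- Second entries of all transpositions. -/
def pb (M : ℕ) (π : ℕ → ℕ) (k : ℕ) : ℕ :=
  if k < len1 M then fb M π k else
  if k < len1 M + M then 3 * M + (k - len1 M) else
  if k < 2 * len1 M + M then fb M π (2 * len1 M + M - 1 - k) else
  if k < 3 * len1 M + M then 3 * M + fb M π (3 * len1 M + M - 1 - k) else
  1

/-- The least `w < p` with `w * d % p = 1`, and `0` if there is none. -/
noncomputable def minv (p d : ℕ) : ℕ :=
  open Classical in if h : ∃ w, w < p ∧ w * d % p = 1 then Nat.find h else 0

/-- `β j - α j` modulo `p`. -/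
def dif (p : ℕ) (α β : ℕ → ℕ) (j : ℕ) : ℕ := (β j + (p - α j)) % p

/-- The entries which realise the transposition `(α j, β j)` in six steps, `r < 6`. -/
noncomputable def ent (p G J : ℕ) (α β : ℕ → ℕ) (j r : ℕ) : ℕ :=
  if r = 0 then minv p (dif p α β j) else
  if r = 1 then p - dif p α β j else
  if r = 2 then (G + (p - α j)) * minv p (dif p α β j) * minv p (dif p α β j) +
    (p - minv p (dif p α β j)) else
  if r = 3 then dif p α β j else
  if r = 4 then p - minv p (dif p α β j) else
  if j + 1 < J then G + (p - β (j + 1)) else G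

/-- The entries of the continued fraction for `J` transpositions. -/
noncomputable def coef (p G J : ℕ) (α β : ℕ → ℕ) (t : ℕ) : ℕ :=
  (if t = 0 then p - β 0 else
    if (t - 1) / 6 < J then ent p G J α β ((t - 1) / 6) ((t - 1) % 6) else 0) % p

end Pool.Agent.InvCF
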