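import Mathlib
import Pool.Agent.InvCF.Defs

/-!
The list of transpositions moves `0` to `0` if `T` is in the `π`-orbit of `0` and to `1`
otherwise.
-/

set_option autoImplicit false

namespace Pool.Agent.InvCF

private theorem prog_fa_lt {M T k : ℕ} (hT : T < M) : fa M T k < M := by
  unfold fa
  split_ifs with h1 h2
  · exact h1
  · omega
  · exact hT

private theorem prog_fb_lt {M : ℕ} {π : ℕ → ℕ} (hm : ∀ x, x < M → π x < M) {k : ℕ}
    (hk : k < len1 M) : M ≤ fb M π k ∧ fb M π k < 3 * M := by
  have hk' : k / (2 * M + 1) < M := by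
    unfold len1 at hk
    exact Nat.div_lt_of_lt_mul (by rwa [mul_comm])
  unfold fb
  generalize k / (2 * M + 1) = q at *
  split_ifs with h1 h2
  · have := hm _ h1
    omega
  · omega
  · omega

theorem prog_lt {M T : ℕ} {π : ℕ → ℕ} (hm : ∀ x, x < M → π x < M) (hT : T < M) {k : ℕ}
    (hk : k < len M) : pa M T k < 6 * M ∧ pb M π k < 6 * M ∧ pa M T k ≠ pb M π k := by
  unfold len at hk
  unfold pa pb
  by_cases h1 : k < len1 M
  · rw [if_pos h1, if_pos h1]
    have e1 := prog_fa_lt (k := k) hT
    have e2 := prog_fb_lt hm h1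
    omega
  rw [if_neg h1, if_neg h1]
  by_cases h2 : k < len1 M + M
  · rw [if_pos h2, if_pos h2]
    omega
  rw [if_neg h2, if_neg h2]
  by_cases h3 : k < 2 * len1 M + M
  · rw [if_pos h3, if_pos h3]
    have e1 := prog_fa_lt (k := 2 * len1 M + M - 1 - k) hT
    have e2 := prog_fb_lt (k := 2 * len1 M + M - 1 - k) hm (by omega)
    omega
  rw [if_neg h3, if_neg h3]
  by_cases h4 : k < 3 * len1 M + M
  · rw [if_pos h4, if_pos h4]
    have e1 := prog_fa_lt (k := 3 * len1 M + M - 1 - k) hT
    have e2 := prog_fb_lt (k := 3 * len1 M + M - 1 - k) hm (by omega)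
    omega
  rw [if_neg h4, if_neg h4]
  omega

private theorem prog_sw_sw (a b x : ℕ) : sw a b (sw a b x) = x := by
  unfold sw
  split_ifs <;> omega

private theorem prog_sw_comm (a b x : ℕ) : sw a b x = sw b a x := by
  unfold sw
  split_ifs <;> omega

private theorem prog_sw_shift (c a b x : ℕ) : sw (c + a) (c + b) (c + x) = c + sw a b x := by
  unfold sw
  split_ifs <;> omega

private theorem prog_run_add (α β : ℕ → ℕ) (x a b : ℕ) : run α β x (a + b) =
    run (fun j => α (a + j)) (fun j => β (a + j)) (run α β x a) b := by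
  induction b with
  | zero => rfl
  | succ b ih =>
    rw [← add_assoc]
    simp only [run]
    rw [ih]

private theorem prog_run_congr {α β α' β' : ℕ → ℕ} (x k : ℕ)
    (h : ∀ j < k, α j = α' j ∧ β j = β' j) : run α β x k = run α' β' x k := by
  induction k with
  | zero => rfl
  | succ k ih =>
    simp only [run]
    rw [ih fun j hj => h j (by omega), (h k (by omega)).1, (h k (by omega)).2]

private theorem prog_run_comm (α β : ℕ → ℕ) (x k : ℕ) : run α β x k = run β α x k := by
  induction k with
  | zero => rfl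
  | succ k ih =>
    simp only [run]
    rw [ih, prog_sw_comm]

private theorem prog_run_fix (α β : ℕ → ℕ) (x k : ℕ) (h : ∀ j < k, α j ≠ x ∧ β j ≠ x) :
    run α β x k = x := by
  induction k with
  | zero => rfl
  | succ k ih =>
    simp only [run]
    rw [ih fun j hj => h j (by omega)]
    unfold sw
    rw [if_neg (h k (by omega)).1.symm, if_neg (h k (by omega)).2.symm]

private theorem prog_run_hit (α β : ℕ → ℕ) (x k m : ℕ) (hm : m < k)
    (h1 : ∀ j < m, α j ≠ x ∧ β j ≠ x) (h2 : α m = x)
    (h3 : ∀ j, m < j → j < k → α j ≠ β m ∧ β j ≠ β m) : run α β x k = β m := by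
  obtain ⟨l, rfl⟩ := Nat.exists_eq_add_of_lt hm
  have e1 : run α β x (m + 1) = β m := by
    simp only [run]
    rw [prog_run_fix α β x m h1]
    unfold sw
    rw [if_pos h2.symm]
  rw [show m + l + 1 = (m + 1) + l by omega, prog_run_add, e1]
  exact prog_run_fix _ _ _ _ fun j hj => h3 _ (by omega) (by omega)

private theorem prog_run_rev (α β : ℕ → ℕ) (x k : ℕ) :
    run (fun j => α (k - 1 - j)) (fun j => β (k - 1 - j)) (run α β x k) k = x := by
  induction k with
  | zero => rfl
  | succ k ih =>
    rw [show run (fun j => α (k + 1 - 1 - j)) (fun j => β (k + 1 - 1 - j)) (run α β x (k + 1))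
      (k + 1) = run (fun j => α (k + 1 - 1 - j)) (fun j => β (k + 1 - 1 - j)) (run α β x (k + 1))
      (1 + k) by rw [add_comm], prog_run_add]
    have e1 : run (fun j => α (k + 1 - 1 - j)) (fun j => β (k + 1 - 1 - j)) (run α β x (k + 1)) 1 =
        run α β x k := by
      simp only [run]
      exact prog_sw_sw _ _ _
    rw [e1]
    refine (prog_run_congr _ _ fun j hj => ?_).trans ih
    have : k + 1 - 1 - (1 + j) = k - 1 - j := by omega
    simp only [this, and_self]

private theorem prog_run_shift (c : ℕ) (α β : ℕ → ℕ) (x k : ℕ) :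
    run (fun j => c + α j) (fun j => c + β j) (c + x) k = c + run α β x k := by
  induction k with
  | zero => rfl
  | succ k ih =>
    simp only [run]
    rw [ih, prog_sw_shift]

private theorem prog_fa_round {M T i r : ℕ} (hr : r < 2 * M + 1) :
    fa M T (i * (2 * M + 1) + r) = if r < M then r else if r < 2 * M then r - M else T := by
  have e : (i * (2 * M + 1) + r) % (2 * M + 1) = r := by
    rw [Nat.mul_add_mod_self_right, Nat.mod_eq_of_lt hr]
  unfold fa
  rw [e]

private theorem prog_fb_round {M i r : ℕ} {π : ℕ → ℕ} (hr : r < 2 * M + 1) :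
    fb M π (i * (2 * M + 1) + r) = if r < M then M + π r else if r < 2 * M then r else
      2 * M + i := by
  have e : (i * (2 * M + 1) + r) % (2 * M + 1) = r := by
    rw [Nat.mul_add_mod_self_right, Nat.mod_eq_of_lt hr]
  have e2 : (i * (2 * M + 1) + r) / (2 * M + 1) = i := by
    rw [mul_comm, Nat.mul_add_div (by omega), Nat.div_eq_of_lt hr, add_zero]
  unfold fb
  rw [e, e2]

/-- One round, on a point `x < M`. -/
private theorem prog_round {M T i x : ℕ} {π : ℕ → ℕ} (hm : ∀ x, x < M → π x < M)
    (hi : ∀ x y, x < M → y < M → π x = π y → x = y) (hx : x < M) :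
    run (fun j => fa M T (i * (2 * M + 1) + j)) (fun j => fb M π (i * (2 * M + 1) + j)) x
      (2 * M + 1) = if π x = T then 2 * M + i else π x := by
  have hπ := hm x hx
  rw [show 2 * M + 1 = M + (M + 1) by omega, prog_run_add]
  have e1 : run (fun j => fa M T (i * (M + (M + 1)) + j)) (fun j => fb M π (i * (M + (M + 1)) + j)) x
      M = M + π x := by
    rw [show M + (M + 1) = 2 * M + 1 by omega]
    have e2 := prog_run_hit (fun j => fa M T (i * (2 * M + 1) + j))
      (fun j => fb M π (i * (2 * M + 1) + j)) x M x hx ?_ ?_ ?_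
    · rw [e2]
      show fb M π (i * (2 * M + 1) + x) = _
      rw [prog_fb_round (by omega), if_pos hx]
    · intro j hj
      show fa M T (i * (2 * M + 1) + j) ≠ x ∧ fb M π (i * (2 * M + 1) + j) ≠ x
      rw [prog_fa_round (by omega), prog_fb_round (by omega), if_pos (by omega), if_pos (by omega)]
      omega
    · show fa M T (i * (2 * M + 1) + x) = x
      rw [prog_fa_round (by omega), if_pos hx]
    · intro j h1 h2
      show fa M T (i * (2 * M + 1) + j) ≠ fb M π (i * (2 * M + 1) + x) ∧
        fb M π (i * (2 * M + 1) + j) ≠ fb M π (i * (2 * M + 1) + x)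
      rw [prog_fa_round (by omega), prog_fb_round (by omega), prog_fb_round (by omega),
        if_pos (by omega), if_pos (by omega), if_pos (by omega)]
      refine ⟨by omega, fun h => ?_⟩
      have := hi j x h2 hx (by omega)
      omega
  rw [e1, prog_run_add]
  have e3 : run (fun j => fa M T (i * (M + (M + 1)) + (M + j)))
      (fun j => fb M π (i * (M + (M + 1)) + (M + j))) (M + π x) M = π x := by
    rw [show M + (M + 1) = 2 * M + 1 by omega, prog_run_comm]
    have f1 : ∀ j < M, fa M T (i * (2 * M + 1) + (M + j)) = j := fun j hj => by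
      rw [prog_fa_round (by omega), if_neg (by omega), if_pos (by omega)]
      omega
    have f2 : ∀ j < M, fb M π (i * (2 * M + 1) + (M + j)) = M + j := fun j hj => by
      rw [prog_fb_round (by omega), if_neg (by omega), if_pos (by omega)]
    have e2 := prog_run_hit (fun j => fb M π (i * (2 * M + 1) + (M + j)))
      (fun j => fa M T (i * (2 * M + 1) + (M + j))) (M + π x) M (π x) hπ ?_ ?_ ?_
    · rw [e2]
      exact f1 _ hπ
    · intro j hj
      show fb M π (i * (2 * M + 1) + (M + j)) ≠ M + π x ∧
        fa M T (i * (2 * M + 1) + (M + j)) ≠ M + π x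
      rw [f1 j (by omega), f2 j (by omega)]
      omega
    · exact f2 _ hπ
    · intro j h1 h2
      show fb M π (i * (2 * M + 1) + (M + j)) ≠ fa M T (i * (2 * M + 1) + (M + π x)) ∧
        fa M T (i * (2 * M + 1) + (M + j)) ≠ fa M T (i * (2 * M + 1) + (M + π x))
      rw [f1 j (by omega), f2 j (by omega), f1 _ hπ]
      omega
  rw [e3]
  show sw (fa M T (i * (M + (M + 1)) + (M + (M + 0)))) (fb M π (i * (M + (M + 1)) + (M + (M + 0))))
    (π x) = _
  rw [show M + (M + 1) = 2 * M + 1 by omega, prog_fa_round (by omega), prog_fb_round (by omega),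
    if_neg (by omega), if_neg (by omega), if_neg (by omega), if_neg (by omega)]
  unfold sw
  split_ifs <;> omega

/-- One round, on a point `2 * M + t`, `t ≠ i`. -/
private theorem prog_round' {M T i t : ℕ} {π : ℕ → ℕ} (hm : ∀ x, x < M → π x < M) (hT : T < M)
    (ht : t ≠ i) :
    run (fun j => fa M T (i * (2 * M + 1) + j)) (fun j => fb M π (i * (2 * M + 1) + j)) (2 * M + t)
      (2 * M + 1) = 2 * M + t := by
  apply prog_run_fix
  intro j hj
  show fa M T (i * (2 * M + 1) + j) ≠ 2 * M + t ∧ fb M π (i * (2 * M + 1) + j) ≠ 2 * M + t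
  have e1 := prog_fa_lt (k := i * (2 * M + 1) + j) hT
  refine ⟨by omega, ?_⟩
  rw [prog_fb_round hj]
  split_ifs with h1 h2
  · have := hm j h1
    omega
  · omega
  · omega

private theorem prog_iter_lt {M : ℕ} {π : ℕ → ℕ} (hm : ∀ x, x < M → π x < M) (hM : 0 < M)
    (i : ℕ) : π^[i] 0 < M := by
  induction i with
  | zero => exact hM
  | succ i ih =>
    rw [Function.iterate_succ_apply']
    exact hm _ ih

/-- The point after `i` rounds. -/
private theorem prog_rounds {M T : ℕ} {π : ℕ → ℕ} (hm : ∀ x, x < M → π x < M)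
    (hi : ∀ x y, x < M → y < M → π x = π y → x = y) (hT : T < M) (i : ℕ) :
    ((∀ t < i, π^[t + 1] 0 ≠ T) ∧ run (fa M T) (fb M π) 0 (i * (2 * M + 1)) = π^[i] 0) ∨
    ∃ t < i, π^[t + 1] 0 = T ∧ run (fa M T) (fb M π) 0 (i * (2 * M + 1)) = 2 * M + t := by
  induction i with
  | zero => exact Or.inl ⟨fun t ht => absurd ht (by omega), by simp [run]⟩
  | succ i ih =>
    rw [add_mul, one_mul, prog_run_add]
    rcases ih with ⟨h1, h2⟩ | ⟨t, ht, h1, h2⟩
    · rw [h2, prog_round hm hi (prog_iter_lt hm (by omega) i), ← Function.iterate_succ_apply' π i 0]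
      by_cases h3 : π^[i + 1] 0 = T
      · right
        exact ⟨i, by omega, h3, by rw [if_pos h3]⟩
      · left
        refine ⟨fun t ht => ?_, by rw [if_neg h3]⟩
        by_cases h4 : t = i
        · rw [h4]; exact h3
        · exact h1 t (by omega)
    · right
      refine ⟨t, by omega, h1, ?_⟩
      rw [h2]
      exact prog_round' hm hT (by omega)

/-- The orbit is visited in the first `M` steps. -/
private theorem prog_orbit {M T : ℕ} {π : ℕ → ℕ} (hm : ∀ x, x < M → π x < M)
    (hi : ∀ x y, x < M → y < M → π x = π y → x = y) (hT : T < M) (hT0 : 0 < T)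
    (h : ∃ t, π^[t] 0 = T) : ∃ t < M, π^[t + 1] 0 = T := by
  obtain ⟨t, ht⟩ := h
  have hcan : ∀ a d, π^[a + d] 0 = π^[a] 0 → π^[d] 0 = 0 := by
    intro a
    induction a with
    | zero => intro d hd; simpa using hd
    | succ a ih =>
      intro d hd
      apply ih d
      rw [show a + 1 + d = (a + d) + 1 by omega, Function.iterate_succ_apply',
        Function.iterate_succ_apply'] at hd
      exact hi _ _ (prog_iter_lt hm (by omega) _) (prog_iter_lt hm (by omega) _) hd
  obtain ⟨a, ha, b, hb, hab, hfab⟩ := Finset.exists_ne_map_eq_of_card_lt_of_maps_to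
    (s := Finset.range (M + 1)) (t := Finset.range M) (by simp) (f := fun i => π^[i] 0)
    (fun i _ => Finset.mem_coe.2 (Finset.mem_range.2 (prog_iter_lt hm (by omega) i)))
  rw [Finset.mem_range] at ha hb
  obtain ⟨p, hp0, hpM, hp⟩ : ∃ p, 0 < p ∧ p ≤ M ∧ π^[p] 0 = 0 := by
    rcases Nat.lt_or_gt_of_ne hab with h1 | h1
    · refine ⟨b - a, by omega, by omega, hcan a (b - a) ?_⟩
      rw [Nat.add_sub_cancel' h1.le]
      exact hfab.symm
    · refine ⟨a - b, by omega, by omega, hcan b (a - b) ?_⟩
      rw [Nat.add_sub_cancel' h1.le]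
      exact hfab
  have hper : Function.IsPeriodicPt π p 0 := hp
  have h2 := hper.iterate_mod_apply t
  rw [ht] at h2
  have h3 : t % p < p := Nat.mod_lt _ hp0
  have h4 : t % p ≠ 0 := by
    intro h5
    rw [h5] at h2
    simp only [Function.iterate_zero, id_eq] at h2
    omega
  refine ⟨t % p - 1, by omega, ?_⟩
  rw [Nat.sub_add_cancel (by omega)]
  exact h2

theorem run_prog {M T : ℕ} {π : ℕ → ℕ} (hm : ∀ x, x < M → π x < M)
    (hi : ∀ x y, x < M → y < M → π x = π y → x = y) (hT : T < M) (hT0 : 0 < T) :
    ((∃ t, π^[t] 0 = T) → run (pa M T) (pb M π) 0 (len M) = 0) ∧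
    ((¬ ∃ t, π^[t] 0 = T) → run (pa M T) (pb M π) 0 (len M) = 1) := by
  set L := run (fa M T) (fb M π) 0 (len1 M) with hL
  have hrounds := prog_rounds hm hi hT M
  rw [show M * (2 * M + 1) = len1 M from rfl, ← hL] at hrounds
  have hrev := prog_run_rev (fa M T) (fb M π) 0 (len1 M)
  rw [← hL] at hrev
  -- the blocks
  have hlen : len M = len1 M + (M + (len1 M + (len1 M + 1))) := by unfold len; omega
  have b1 : run (pa M T) (pb M π) 0 (len1 M) = L := by
    rw [hL]
    refine prog_run_congr _ _ fun j hj => ?_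
    unfold pa pb
    rw [if_pos hj, if_pos hj]
    exact ⟨rfl, rfl⟩
  have c2 : ∀ x, run (fun j => pa M T (len1 M + j)) (fun j => pb M π (len1 M + j)) x M =
      run (fun j => j) (fun j => 3 * M + j) x M := fun x => by
    refine prog_run_congr _ _ fun j hj => ?_
    constructor
    · show pa M T (len1 M + j) = j
      unfold pa
      rw [if_neg (by omega), if_pos (by omega)]
      omega
    · show pb M π (len1 M + j) = 3 * M + j
      unfold pb
      rw [if_neg (by omega), if_pos (by omega)]
      omega
  have c3 : ∀ x, run (fun j => pa M T (len1 M + (M + j))) (fun j => pb M π (len1 M + (M + j))) x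
      (len1 M) = run (fun j => fa M T (len1 M - 1 - j)) (fun j => fb M π (len1 M - 1 - j)) x
      (len1 M) := fun x => by
    refine prog_run_congr _ _ fun j hj => ?_
    have e : 2 * len1 M + M - 1 - (len1 M + (M + j)) = len1 M - 1 - j := by omega
    constructor
    · show pa M T (len1 M + (M + j)) = _
      unfold pa
      rw [if_neg (by omega), if_neg (by omega), if_pos (by omega), e]
    · show pb M π (len1 M + (M + j)) = _
      unfold pb
      rw [if_neg (by omega), if_neg (by omega), if_pos (by omega), e]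
  have c4 : ∀ x, run (fun j => pa M T (len1 M + (M + (len1 M + j))))
      (fun j => pb M π (len1 M + (M + (len1 M + j)))) x (len1 M) =
      run (fun j => 3 * M + fa M T (len1 M - 1 - j)) (fun j => 3 * M + fb M π (len1 M - 1 - j)) x
      (len1 M) := fun x => by
    refine prog_run_congr _ _ fun j hj => ?_
    have e : 3 * len1 M + M - 1 - (len1 M + (M + (len1 M + j))) = len1 M - 1 - j := by omega
    constructor
    · show pa M T (len1 M + (M + (len1 M + j))) = _
      unfold pa
      rw [if_neg (by omega), if_neg (by omega), if_neg (by omega), if_pos (by omega), e]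
    · show pb M π (len1 M + (M + (len1 M + j))) = _
      unfold pb
      rw [if_neg (by omega), if_neg (by omega), if_neg (by omega), if_pos (by omega), e]
  have c5 : ∀ x, run (fun j => pa M T (len1 M + (M + (len1 M + (len1 M + j)))))
      (fun j => pb M π (len1 M + (M + (len1 M + (len1 M + j))))) x 1 = sw (3 * M) 1 x := fun x => by
    show sw (pa M T (len1 M + (M + (len1 M + (len1 M + 0)))))
      (pb M π (len1 M + (M + (len1 M + (len1 M + 0))))) x = _
    unfold pa pb
    rw [if_neg (by omega), if_neg (by omega), if_neg (by omega), if_neg (by omega),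
      if_neg (by omega), if_neg (by omega), if_neg (by omega), if_neg (by omega)]
  have hall : run (pa M T) (pb M π) 0 (len M) = sw (3 * M) 1
      (run (fun j => 3 * M + fa M T (len1 M - 1 - j)) (fun j => 3 * M + fb M π (len1 M - 1 - j))
        (run (fun j => fa M T (len1 M - 1 - j)) (fun j => fb M π (len1 M - 1 - j))
          (run (fun j => j) (fun j => 3 * M + j) L M) (len1 M)) (len1 M)) := by
    rw [hlen, prog_run_add, b1, prog_run_add, c2, prog_run_add, c3, prog_run_add, c4, c5]
  rw [hall]
  have hfbr : ∀ j < len1 M, M ≤ fb M π (len1 M - 1 - j) ∧ fb M π (len1 M - 1 - j) < 3 * M :=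
    fun j hj => prog_fb_lt hm (by omega)
  have hfar : ∀ j, fa M T (len1 M - 1 - j) < M := fun j => prog_fa_lt hT
  constructor
  · intro h
    obtain ⟨t, htM, ht⟩ := prog_orbit hm hi hT hT0 h
    obtain ⟨s, hs, hLs⟩ : ∃ s < M, L = 2 * M + s := by
      rcases hrounds with ⟨h1, _⟩ | ⟨s, hs, _, h2⟩
      · exact absurd ht (h1 t htM)
      · exact ⟨s, hs, h2⟩
    have d2 : run (fun j => j) (fun j => 3 * M + j) L M = L := by
      apply prog_run_fix
      intro j hj
      show j ≠ L ∧ 3 * M + j ≠ L
      omega
    rw [d2, hrev]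
    have d4 : run (fun j => 3 * M + fa M T (len1 M - 1 - j))
        (fun j => 3 * M + fb M π (len1 M - 1 - j)) 0 (len1 M) = 0 := by
      apply prog_run_fix
      intro j hj
      show 3 * M + fa M T (len1 M - 1 - j) ≠ 0 ∧ 3 * M + fb M π (len1 M - 1 - j) ≠ 0
      omega
    rw [d4]
    unfold sw
    rw [if_neg (by omega), if_neg (by omega)]
  · intro h
    have hLM : L < M := by
      rcases hrounds with ⟨_, h2⟩ | ⟨s, _, h1, _⟩
      · rw [h2]
        exact prog_iter_lt hm (by omega) M
      · exact absurd ⟨s + 1, h1⟩ h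
    have d2 : run (fun j => j) (fun j => 3 * M + j) L M = 3 * M + L := by
      refine prog_run_hit _ _ L M L hLM ?_ rfl ?_
      · intro j hj
        show j ≠ L ∧ 3 * M + j ≠ L
        omega
      · intro j h1 h2
        show j ≠ 3 * M + L ∧ 3 * M + j ≠ 3 * M + L
        omega
    have d3 : run (fun j => fa M T (len1 M - 1 - j)) (fun j => fb M π (len1 M - 1 - j))
        (3 * M + L) (len1 M) = 3 * M + L := by
      apply prog_run_fix
      intro j hj
      have e1 := hfar j
      have e2 := hfbr j hj
      show fa M T (len1 M - 1 - j) ≠ 3 * M + L ∧ fb M π (len1 M - 1 - j) ≠ 3 * M + L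
      omega
    rw [d2, d3, prog_run_shift, hrev]
    unfold sw
    rw [if_pos (by omega)]

end Pool.Agent.InvCF
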