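import Mathlib
import Pool.Agent.InvCF.Defs

/-!
Carlitz' identity: a transposition in six steps of a continued fraction modulo `p`.
-/

set_option autoImplicit false

namespace Pool.Agent.InvCF

/-- Carlitz' identity. -/
theorem three_steps {K : Type*} [Field K] [DecidableEq K] (α β x : K) (hne : α ≠ β) :
    (-(β - α) + ((β - α)⁻¹ + (x - β)⁻¹)⁻¹)⁻¹ =
      -((if x = α then β else if x = β then α else x) - α) * (β - α)⁻¹ * (β - α)⁻¹ := by
  have hd : β - α ≠ 0 := sub_ne_zero.mpr (Ne.symm hne)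
  by_cases h1 : x = α
  · subst h1
    rw [if_pos rfl]
    have e1 : (β - x)⁻¹ + (x - β)⁻¹ = 0 := by
      rw [← neg_sub β x, inv_neg]; ring
    rw [e1, inv_zero, add_zero, inv_neg]
    field_simp
  · rw [if_neg h1]
    by_cases h2 : x = β
    · subst h2
      rw [if_pos rfl]
      simp
    · rw [if_neg h2]
      have ha : x - α ≠ 0 := sub_ne_zero.mpr h1
      have hb : x - β ≠ 0 := sub_ne_zero.mpr h2
      have e1 : (β - α)⁻¹ + (x - β)⁻¹ = (x - α) / ((β - α) * (x - β)) := by
        field_simp; ring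
      have e2 : -(β - α) + ((x - α) / ((β - α) * (x - β)))⁻¹ = -(β - α) ^ 2 / (x - α) := by
        rw [inv_div]; field_simp; ring
      rw [e1, e2, inv_div]
      field_simp

theorem six_steps {K : Type*} [Field K] [DecidableEq K] (α β G x : K) (hne : α ≠ β)
    (h1 : (if x = α then β else if x = β then α else x) ≠ G)
    (h2 : (if x = α then β else if x = β then α else x) ≠ G - (β - α)) :
    (-(β - α)⁻¹ + ((β - α) + (((G - α) * (β - α)⁻¹ * (β - α)⁻¹ - (β - α)⁻¹) +
      (-(β - α) + ((β - α)⁻¹ + (x - β)⁻¹)⁻¹)⁻¹)⁻¹)⁻¹)⁻¹ =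
      (if x = α then β else if x = β then α else x) - G := by
  have hd : β - α ≠ 0 := sub_ne_zero.mpr (Ne.symm hne)
  rw [three_steps α β x hne]
  generalize (if x = α then β else if x = β then α else x) = y at h1 h2 ⊢
  generalize β - α = d at hd h2 ⊢
  have hw : G - y ≠ 0 := sub_ne_zero.mpr (Ne.symm h1)
  have hwd : G - y - d ≠ 0 := by
    intro h
    apply h2
    linear_combination -h
  have e1 : (G - α) * d⁻¹ * d⁻¹ - d⁻¹ + -(y - α) * d⁻¹ * d⁻¹ = (G - y - d) / d ^ 2 := by
    field_simp; ring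
  have e2 : d + ((G - y - d) / d ^ 2)⁻¹ = d * (G - y) / (G - y - d) := by
    rw [inv_div]; field_simp; ring
  have e3 : -d⁻¹ + (d * (G - y) / (G - y - d))⁻¹ = -1 / (G - y) := by
    rw [inv_div]; field_simp; ring
  rw [e1, e2, e3, inv_div]
  ring

theorem minv_cast {p : ℕ} (hp : p.Prime) (d : ℕ) : (minv p d : ZMod p) = (d : ZMod p)⁻¹ := by
  have : Fact p.Prime := ⟨hp⟩
  unfold minv
  split_ifs with h
  · have h1 := (Nat.find_spec h).2
    have h2 : ((Nat.find h * d : ℕ) : ZMod p) = 1 := by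
      rw [← ZMod.natCast_mod, h1]; simp
    push_cast at h2
    exact eq_inv_of_mul_eq_one_left h2
  · have hd : (d : ZMod p) = 0 := by
      by_contra hd
      apply h
      refine ⟨((d : ZMod p)⁻¹).val, ZMod.val_lt _, ?_⟩
      have h1 : ((((d : ZMod p)⁻¹).val * d : ℕ) : ZMod p) = ((1 : ℕ) : ZMod p) := by
        push_cast
        rw [ZMod.natCast_zmod_val, inv_mul_cancel₀ hd]
      have h2 := (ZMod.natCast_eq_natCast_iff' _ _ _).mp h1
      rwa [Nat.mod_eq_of_lt hp.one_lt] at h2
    rw [hd]; simp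

theorem cast_inj_of_lt {p a b : ℕ} (ha : a < p) (hb : b < p) (h : (a : ZMod p) = b) : a = b := by
  have := (ZMod.natCast_eq_natCast_iff' _ _ _).mp h
  rwa [Nat.mod_eq_of_lt ha, Nat.mod_eq_of_lt hb] at this

theorem run_lt {S J : ℕ} {α β : ℕ → ℕ} (hS : ∀ j, j < J → α j < S ∧ β j < S ∧ α j ≠ β j)
    (h0 : 0 < S) {j : ℕ} (hj : j ≤ J) : run α β 0 j < S := by
  induction j with
  | zero => simpa [run] using h0
  | succ j ih =>
    have h1 := hS j (by omega)
    have h2 := ih (by omega)
    simp only [run, sw]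
    split_ifs
    · exact h1.2.1
    · exact h1.1
    · exact h2

/-- One block of six steps. -/
theorem cf_block {p J S : ℕ} {α β : ℕ → ℕ} (hp : p.Prime)
    (hS : ∀ j, j < J → α j < S ∧ β j < S ∧ α j ≠ β j) (hpS : 3 * S < p) {j : ℕ} (hj : j < J)
    (ih : cf p (coef p (2 * S) J α β) (6 * j + 1) = (run α β 0 j : ZMod p) - (β j : ZMod p)) :
    cf p (coef p (2 * S) J α β) (6 * j + 7) = (run α β 0 (j + 1) : ZMod p) -
      (if j + 1 < J then (β (j + 1) : ZMod p) else 0) := by
  classical
  have : Fact p.Prime := ⟨hp⟩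
  obtain ⟨h1, h2, h3⟩ := hS j hj
  have hS0 : 0 < S := by omega
  have hpp : ((p : ℕ) : ZMod p) = 0 := by simp
  have hdif : (dif p α β j : ZMod p) = (β j : ZMod p) - (α j : ZMod p) := by
    unfold dif
    rw [ZMod.natCast_mod]
    push_cast [Nat.cast_sub (show α j ≤ p by omega)]
    rw [hpp]; ring
  have hdp : dif p α β j < p := Nat.mod_lt _ hp.pos
  have hminv : (minv p (dif p α β j) : ZMod p) = ((β j : ZMod p) - (α j : ZMod p))⁻¹ := by
    rw [minv_cast hp, hdif]
  have hmp : minv p (dif p α β j) ≤ p := by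
    unfold minv
    split_ifs with h
    · exact (Nat.find_spec h).1.le
    · exact Nat.zero_le _
  have hco : ∀ r, r < 6 → (coef p (2 * S) J α β (6 * j + 1 + r) : ZMod p) =
      (ent p (2 * S) J α β j r : ZMod p) := by
    intro r hr
    unfold coef
    have e1 : (6 * j + 1 + r - 1) / 6 = j := by omega
    have e2 : (6 * j + 1 + r - 1) % 6 = r := by omega
    rw [ZMod.natCast_mod, if_neg (by omega), e1, e2, if_pos hj]
  have hstep : ∀ t, cf p (coef p (2 * S) J α β) (t + 1) =
      (coef p (2 * S) J α β t : ZMod p) + (cf p (coef p (2 * S) J α β) t)⁻¹ := fun t => rfl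
  have c0 := hco 0 (by omega)
  have c1 := hco 1 (by omega)
  have c2 := hco 2 (by omega)
  have c3 := hco 3 (by omega)
  have c4 := hco 4 (by omega)
  have c5 := hco 5 (by omega)
  have s0 := hstep (6 * j + 1 + 0)
  have s1 := hstep (6 * j + 1 + 1)
  have s2 := hstep (6 * j + 1 + 2)
  have s3 := hstep (6 * j + 1 + 3)
  have s4 := hstep (6 * j + 1 + 4)
  have s5 := hstep (6 * j + 1 + 5)
  have e0 : (ent p (2 * S) J α β j 0 : ZMod p) = ((β j : ZMod p) - (α j : ZMod p))⁻¹ := by
    simp [ent, hminv]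
  have e1 : (ent p (2 * S) J α β j 1 : ZMod p) = -((β j : ZMod p) - (α j : ZMod p)) := by
    unfold ent
    rw [if_neg (by omega), if_pos rfl, Nat.cast_sub hdp.le, hpp, hdif]; ring
  have e2 : (ent p (2 * S) J α β j 2 : ZMod p) = (((2 * S : ℕ) : ZMod p) - (α j : ZMod p)) *
      ((β j : ZMod p) - (α j : ZMod p))⁻¹ * ((β j : ZMod p) - (α j : ZMod p))⁻¹ -
      ((β j : ZMod p) - (α j : ZMod p))⁻¹ := by
    unfold ent
    rw [if_neg (by omega), if_neg (by omega), if_pos rfl]
    rw [Nat.cast_add, Nat.cast_mul, Nat.cast_mul, Nat.cast_add, Nat.cast_sub hmp,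
      Nat.cast_sub (show α j ≤ p by omega), hpp, hminv]
    ring
  have e3 : (ent p (2 * S) J α β j 3 : ZMod p) = (β j : ZMod p) - (α j : ZMod p) := by
    unfold ent
    rw [if_neg (by omega), if_neg (by omega), if_neg (by omega), if_pos rfl, hdif]
  have e4 : (ent p (2 * S) J α β j 4 : ZMod p) = -((β j : ZMod p) - (α j : ZMod p))⁻¹ := by
    unfold ent
    rw [if_neg (by omega), if_neg (by omega), if_neg (by omega), if_neg (by omega), if_pos rfl,
      Nat.cast_sub hmp, hpp, hminv]
    ring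
  have e5 : (ent p (2 * S) J α β j 5 : ZMod p) = ((2 * S : ℕ) : ZMod p) -
      (if j + 1 < J then (β (j + 1) : ZMod p) else 0) := by
    unfold ent
    rw [if_neg (by omega), if_neg (by omega), if_neg (by omega), if_neg (by omega),
      if_neg (by omega)]
    split_ifs with h
    · have := hS (j + 1) h
      rw [Nat.cast_add, Nat.cast_sub (show β (j + 1) ≤ p by omega), hpp]; ring
    · simp
  rw [c0, e0] at s0
  rw [c1, e1] at s1
  rw [c2, e2] at s2
  rw [c3, e3] at s3
  rw [c4, e4] at s4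
  rw [c5, e5] at s5
  have hne : (α j : ZMod p) ≠ (β j : ZMod p) := by
    intro h
    exact h3 (cast_inj_of_lt (by omega) (by omega) h)
  have hrj := run_lt hS hS0 (show j ≤ J by omega)
  have hrj1 := run_lt hS hS0 (show j + 1 ≤ J by omega)
  have hsw : (if (run α β 0 j : ZMod p) = (α j : ZMod p) then (β j : ZMod p) else
      if (run α β 0 j : ZMod p) = (β j : ZMod p) then (α j : ZMod p) else
        (run α β 0 j : ZMod p)) = (run α β 0 (j + 1) : ZMod p) := by
    simp only [run, sw]
    have i1 : (run α β 0 j : ZMod p) = (α j : ZMod p) ↔ run α β 0 j = α j :=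
      ⟨fun h => cast_inj_of_lt (by omega) (by omega) h, fun h => by rw [h]⟩
    have i2 : (run α β 0 j : ZMod p) = (β j : ZMod p) ↔ run α β 0 j = β j :=
      ⟨fun h => cast_inj_of_lt (by omega) (by omega) h, fun h => by rw [h]⟩
    simp only [i1, i2]
    split_ifs <;> rfl
  have hsix := six_steps (α j : ZMod p) (β j : ZMod p) ((2 * S : ℕ) : ZMod p)
    (run α β 0 j : ZMod p) hne (by
      rw [hsw]
      intro h
      have := cast_inj_of_lt (by omega) (by omega) h
      omega) (by
      rw [hsw]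
      intro h
      have h' : ((run α β 0 (j + 1) + β j : ℕ) : ZMod p) = ((2 * S + α j : ℕ) : ZMod p) := by
        rw [Nat.cast_add, Nat.cast_add, h]; ring
      have := cast_inj_of_lt (by omega) (by omega) h'
      omega)
  rw [hsw] at hsix
  have hs0 : cf p (coef p (2 * S) J α β) (6 * j + 1 + 0) =
      (run α β 0 j : ZMod p) - (β j : ZMod p) := ih
  rw [hs0] at s0
  rw [s0] at s1
  rw [s1] at s2
  rw [s2] at s3
  rw [s3] at s4
  rw [s4, hsix] at s5
  rw [show 6 * j + 7 = 6 * j + 1 + 5 + 1 by ring, s5]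
  ring

/-- The value of the continued fraction after all the transpositions. -/
theorem cf_coef {p J S : ℕ} {α β : ℕ → ℕ} (hp : p.Prime) (hJ : 0 < J)
    (hS : ∀ j, j < J → α j < S ∧ β j < S ∧ α j ≠ β j) (hpS : 3 * S < p)
    (hrun : run α β 0 J ≤ 1) {t : ℕ} (ht : 6 * J + 1 ≤ t) :
    cf p (coef p (2 * S) J α β) t = (run α β 0 J : ZMod p) := by
  have : Fact p.Prime := ⟨hp⟩
  have hpp : ((p : ℕ) : ZMod p) = 0 := by simp
  have h1 : ∀ j, j ≤ J → cf p (coef p (2 * S) J α β) (6 * j + 1) = (run α β 0 j : ZMod p) -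
      (if j < J then (β j : ZMod p) else 0) := by
    intro j
    induction j with
    | zero =>
      intro _
      have h0 := hS 0 hJ
      have : cf p (coef p (2 * S) J α β) (6 * 0 + 1) =
          (coef p (2 * S) J α β 0 : ZMod p) + (0 : ZMod p)⁻¹ := rfl
      rw [this, if_pos hJ]
      unfold coef
      rw [ZMod.natCast_mod, if_pos rfl, Nat.cast_sub (show β 0 ≤ p by omega), hpp, inv_zero]
      simp [run]
    | succ j ih =>
      intro hj
      have hjJ : j < J := by omega
      have h2 := ih (by omega)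
      rw [if_pos hjJ] at h2
      exact cf_block hp hS hpS hjJ h2
  have h2 := h1 J le_rfl
  rw [if_neg (lt_irrefl J), sub_zero] at h2
  obtain ⟨s, rfl⟩ := Nat.exists_eq_add_of_le ht
  clear ht
  induction s with
  | zero => exact h2
  | succ s ih =>
    have : cf p (coef p (2 * S) J α β) (6 * J + 1 + (s + 1)) =
        (coef p (2 * S) J α β (6 * J + 1 + s) : ZMod p) +
        (cf p (coef p (2 * S) J α β) (6 * J + 1 + s))⁻¹ := rfl
    rw [this, ih]
    have hc : coef p (2 * S) J α β (6 * J + 1 + s) = 0 := by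
      unfold coef
      rw [if_neg (by omega), if_neg (by omega)]
      simp
    rw [hc]
    have : run α β 0 J = 0 ∨ run α β 0 J = 1 := by omega
    rcases this with h | h <;> rw [h] <;> simp

end Pool.Agent.InvCF
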