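import Mathlib
import Pool.Agent.InvCF.Defs
import Pool.Agent.Grz.Tour

/-!
The entries of the continued fractions have bounded-formula graph.
-/

set_option autoImplicit false

namespace Pool.Agent.InvCF

open Pool.Agent.Grz

theorem prime_iff_ball (w : ℕ) : w.Prime ↔
    (2 ≤ w ∧ ∀ a, a ≤ w → ∀ b, b ≤ w → (a * b = w → (a = 1 ∨ b = 1))) := by
  constructor
  · intro h
    refine ⟨h.two_le, fun a _ b _ hab => ?_⟩
    rcases h.eq_one_or_self_of_dvd a ⟨b, hab.symm⟩ with h1 | h1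
    · exact Or.inl h1
    · right
      subst h1
      have ha : 0 < a := h.pos
      exact Nat.eq_of_mul_eq_mul_left ha (by rw [hab, mul_one])
  · rintro ⟨h2, h⟩
    rw [Nat.prime_def]
    refine ⟨h2, fun m hm => ?_⟩
    obtain ⟨b, hb⟩ := hm
    have hm0 : 0 < m := by
      rcases Nat.eq_zero_or_pos m with h0 | h0
      · rw [h0, zero_mul] at hb; omega
      · exact h0
    have hb0 : 0 < b := by
      rcases Nat.eq_zero_or_pos b with h0 | h0
      · rw [h0, mul_zero] at hb; omega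
      · exact h0
    rcases h m (by rw [hb]; exact Nat.le_mul_of_pos_right _ hb0) b
      (by rw [hb]; exact Nat.le_mul_of_pos_left _ hm0) hb.symm with h1 | h1
    · exact Or.inl h1
    · right
      rw [hb, h1, mul_one]

theorem eq_nextPrime_iff (x w : ℕ) : w = nextPrime x ↔
    (x < w ∧ w.Prime ∧ ∀ c, c ≤ w → (x < c ∧ c < w → ¬ c.Prime)) := by
  constructor
  · rintro rfl
    refine ⟨lt_nextPrime x, nextPrime_prime x, ?_⟩
    intro c _ hc hcp
    exact Nat.find_min (Nat.exists_infinite_primes (x + 1)) hc.2 ⟨hc.1, hcp⟩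
  · rintro ⟨h1, h2, h3⟩
    rcases lt_trichotomy w (nextPrime x) with h | h | h
    · exact absurd ⟨h1, h2⟩ (Nat.find_min (Nat.exists_infinite_primes (x + 1)) h)
    · exact h
    · exact absurd (nextPrime_prime x) (h3 _ h.le ⟨lt_nextPrime x, h⟩)

theorem nextPrime_le (x : ℕ) : nextPrime x ≤ 2 * x + 2 := by
  rcases Nat.eq_zero_or_pos x with h | h
  · subst h
    exact Nat.find_le (n := 2) ⟨by omega, Nat.prime_two⟩
  · obtain ⟨q, hq, h1, h2⟩ := Nat.exists_prime_lt_and_le_two_mul x (by omega)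
    have := Nat.find_le (h := Nat.exists_infinite_primes (x + 1)) (n := q) ⟨h1, hq⟩
    unfold nextPrime
    omega

theorem delta0_prime {n : ℕ} {f : (Fin n → ℕ) → ℕ} (hf : DFun n f) :
    Delta0 n (fun v => (f v).Prime) := by
  have h2 : Delta0 n (fun v => 2 ≤ f v) := Delta0.leFun (DFun.const 2) hf
  have hb : DFun (n + 1 + 1) (fun w => w 0) := DFun.proj 0
  have ha : DFun (n + 1 + 1) (fun w => w (Fin.succ 0)) := DFun.proj _
  have h3 : Delta0 (n + 1 + 1) (fun w => w (Fin.succ 0) * w 0 = f (fun i => w i.succ.succ) →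
      (w (Fin.succ 0) = 1 ∨ w 0 = 1)) :=
    (Delta0.eqFun (ha.mul hb) hf.weak.weak).imp
      ((Delta0.eqFun ha (DFun.const 1)).or (Delta0.eqFun hb (DFun.const 1)))
  have h4 : Delta0 (n + 1) (fun w => ∀ b, b ≤ f (fun i => w i.succ) →
      (w 0 * b = f (fun i => w i.succ) → (w 0 = 1 ∨ b = 1))) :=
    Delta0.ballFun (P := fun b w => w 0 * b = f (fun i => w i.succ) → (w 0 = 1 ∨ b = 1))
      hf.weak h3
  have h5 : Delta0 n (fun v => ∀ a, a ≤ f v → ∀ b, b ≤ f v →
      (a * b = f v → (a = 1 ∨ b = 1))) :=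
    Delta0.ballFun (P := fun a v => ∀ b, b ≤ f v → (a * b = f v → (a = 1 ∨ b = 1))) hf h4
  refine (h2.and h5).of_iff ?_
  intro v
  exact prime_iff_ball (f v)

theorem DFun.nextPrime {n : ℕ} {f : (Fin n → ℕ) → ℕ} (hf : DFun n f) :
    DFun n (fun v => nextPrime (f v)) := by
  refine DFun.ofGraph (b := fun v => 2 * f v + 2)
    (((DFun.const 2).mul hf).add (DFun.const 2)) (fun v => nextPrime_le _) ?_
  have h0 : DFun (n + 1) (fun w => w 0) := DFun.proj 0
  have hc : DFun (n + 1 + 1) (fun w => w 0) := DFun.proj 0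
  have h1 : Delta0 (n + 1) (fun w => ∀ c, c ≤ w 0 →
      (f (fun i => w i.succ) < c ∧ c < w 0 → ¬ c.Prime)) :=
    Delta0.ballFun (P := fun c w => (f (fun i => w i.succ) < c ∧ c < w 0 → ¬ c.Prime)) h0
      (((Delta0.ltFun hf.weak.weak hc).and (Delta0.ltFun hc h0.weak)).imp (delta0_prime hc).not)
  refine ((Delta0.ltFun hf.weak h0).and ((delta0_prime h0).and h1)).of_iff ?_
  intro w
  exact eq_nextPrime_iff _ _

theorem DFun.mod' {n : ℕ} {f g : (Fin n → ℕ) → ℕ} (hf : DFun n f) (hg : DFun n g) :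
    DFun n (fun v => f v % g v) := by
  have h := DFun.ite (Delta0.eqFun hg (DFun.const 0)) hf (hf.mod (hg.sub (DFun.const 1)))
  have h1 : (fun v => f v % g v) =
      fun v => if g v = 0 then f v else f v % (g v - 1 + 1) := by
    funext v
    split_ifs with h0
    · rw [h0, Nat.mod_zero]
    · rw [Nat.sub_add_cancel (Nat.pos_of_ne_zero h0)]
  rw [h1]; exact h

theorem minv_spec (p d : ℕ) :
    (minv p d < p ∧ minv p d * d % p = 1 ∧ ∀ c, c < minv p d → c * d % p ≠ 1) ∨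
    (minv p d = 0 ∧ ∀ c, c < p → c * d % p ≠ 1) := by
  classical
  unfold minv
  split_ifs with h
  · left
    obtain ⟨h1, h2⟩ := Nat.find_spec h
    refine ⟨h1, h2, ?_⟩
    intro c hc1 hc2
    exact Nat.find_min h hc1 ⟨by omega, hc2⟩
  · right
    push Not at h
    exact ⟨rfl, h⟩

theorem eq_minv_iff (p d w : ℕ) : w = minv p d ↔
    ((w < p ∧ w * d % p = 1 ∧ ∀ c, c ≤ w → (c < w → c * d % p ≠ 1)) ∨
    (w = 0 ∧ ∀ c, c ≤ p → (c < p → c * d % p ≠ 1))) := by
  rcases minv_spec p d with ⟨h0, h1, h2⟩ | ⟨h0, h1⟩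
  · constructor
    · rintro rfl
      exact Or.inl ⟨h0, h1, fun c _ hc => h2 c hc⟩
    · rintro (⟨k0, k1, k2⟩ | ⟨_, k1⟩)
      · rcases lt_trichotomy w (minv p d) with h | h | h
        · exact absurd k1 (h2 w h)
        · exact h
        · exact absurd h1 (k2 _ h.le h)
      · exact absurd h1 (k1 _ h0.le h0)
  · constructor
    · intro h
      exact Or.inr ⟨h.trans h0, fun c _ hc => h1 c hc⟩
    · rintro (⟨k0, k1, k2⟩ | ⟨k0, _⟩)
      · exact absurd k1 (h1 w k0)
      · rw [h0, k0]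

theorem DFun.minv {n : ℕ} {p d : (Fin n → ℕ) → ℕ} (hp : DFun n p) (hd : DFun n d) :
    DFun n (fun v => minv (p v) (d v)) := by
  refine DFun.ofGraph (b := p) hp ?_ ?_
  · intro v
    rcases minv_spec (p v) (d v) with ⟨h, _, _⟩ | ⟨h, _⟩ <;> omega
  · have h0 : DFun (n + 1) (fun w => w 0) := DFun.proj 0
    have hc : DFun (n + 1 + 1) (fun w => w 0) := DFun.proj 0
    have h1 : Delta0 (n + 1) (fun w => ∀ c, c ≤ w 0 →
        (c < w 0 → c * d (fun i => w i.succ) % p (fun i => w i.succ) ≠ 1)) :=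
      Delta0.ballFun
        (P := fun c w => (c < w 0 → c * d (fun i => w i.succ) % p (fun i => w i.succ) ≠ 1)) h0
        ((Delta0.ltFun hc h0.weak).imp
          (Delta0.eqFun (DFun.mod' (hc.mul hd.weak.weak) hp.weak.weak) (DFun.const 1)).not)
    have h2 : Delta0 (n + 1) (fun w => ∀ c, c ≤ p (fun i => w i.succ) →
        (c < p (fun i => w i.succ) →
          c * d (fun i => w i.succ) % p (fun i => w i.succ) ≠ 1)) :=
      Delta0.ballFun
        (P := fun c w => (c < p (fun i => w i.succ) →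
          c * d (fun i => w i.succ) % p (fun i => w i.succ) ≠ 1)) hp.weak
        ((Delta0.ltFun hc hp.weak.weak).imp
          (Delta0.eqFun (DFun.mod' (hc.mul hd.weak.weak) hp.weak.weak) (DFun.const 1)).not)
    have h3 := ((Delta0.ltFun h0 hp.weak).and
      ((Delta0.eqFun (DFun.mod' (h0.mul hd.weak) hp.weak) (DFun.const 1)).and h1)).or
      ((Delta0.eqFun h0 (DFun.const 0)).and h2)
    refine h3.of_iff ?_
    intro w
    exact eq_minv_iff _ _ _

theorem dfun_fa {n : ℕ} {M T k : (Fin n → ℕ) → ℕ} (hM : DFun n M) (hT : DFun n T)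
    (hk : DFun n k) : DFun n (fun v => fa (M v) (T v) (k v)) := by
  unfold fa
  have h2M : DFun n (fun v => 2 * M v) := (DFun.const 2).mul hM
  have hr : DFun n (fun v => k v % (2 * M v + 1)) := hk.mod h2M
  exact DFun.ite (Delta0.ltFun hr hM) hr (DFun.ite (Delta0.ltFun hr h2M) (hr.sub hM) hT)

theorem dfun_fb {n : ℕ} {M k : (Fin n → ℕ) → ℕ} {π : (Fin n → ℕ) → ℕ → ℕ} (hM : DFun n M)
    (hπ : ∀ r : (Fin n → ℕ) → ℕ, DFun n r → DFun n (fun v => π v (r v)))
    (hk : DFun n k) : DFun n (fun v => fb (M v) (π v) (k v)) := by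
  unfold fb
  have h2M : DFun n (fun v => 2 * M v) := (DFun.const 2).mul hM
  have hr : DFun n (fun v => k v % (2 * M v + 1)) := hk.mod h2M
  exact DFun.ite (Delta0.ltFun hr hM) (hM.add (hπ _ hr)) (DFun.ite (Delta0.ltFun hr h2M) hr
    (h2M.add (hk.div h2M)))

theorem dfun_len1 {n : ℕ} {M : (Fin n → ℕ) → ℕ} (hM : DFun n M) :
    DFun n (fun v => len1 (M v)) := by
  unfold len1
  exact hM.mul (((DFun.const 2).mul hM).add (DFun.const 1))

theorem dfun_len {n : ℕ} {M : (Fin n → ℕ) → ℕ} (hM : DFun n M) :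
    DFun n (fun v => len (M v)) := by
  unfold len
  exact (((DFun.const 3).mul (dfun_len1 hM)).add hM).add (DFun.const 1)

theorem dfun_pa {n : ℕ} {M T k : (Fin n → ℕ) → ℕ} (hM : DFun n M) (hT : DFun n T)
    (hk : DFun n k) : DFun n (fun v => pa (M v) (T v) (k v)) := by
  unfold pa
  have hl := dfun_len1 hM
  have h2l : DFun n (fun v => 2 * len1 (M v) + M v) := ((DFun.const 2).mul hl).add hM
  have h3l : DFun n (fun v => 3 * len1 (M v) + M v) := ((DFun.const 3).mul hl).add hM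
  have h3M : DFun n (fun v => 3 * M v) := (DFun.const 3).mul hM
  refine DFun.ite (Delta0.ltFun hk hl) (dfun_fa hM hT hk) ?_
  refine DFun.ite (Delta0.ltFun hk (hl.add hM)) (hk.sub hl) ?_
  refine DFun.ite (Delta0.ltFun hk h2l)
    (dfun_fa hM hT ((h2l.sub (DFun.const 1)).sub hk)) ?_
  exact DFun.ite (Delta0.ltFun hk h3l)
    (h3M.add (dfun_fa hM hT ((h3l.sub (DFun.const 1)).sub hk))) h3M

theorem dfun_pb {n : ℕ} {M k : (Fin n → ℕ) → ℕ} {π : (Fin n → ℕ) → ℕ → ℕ} (hM : DFun n M)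
    (hπ : ∀ r : (Fin n → ℕ) → ℕ, DFun n r → DFun n (fun v => π v (r v)))
    (hk : DFun n k) : DFun n (fun v => pb (M v) (π v) (k v)) := by
  unfold pb
  have hl := dfun_len1 hM
  have h2l : DFun n (fun v => 2 * len1 (M v) + M v) := ((DFun.const 2).mul hl).add hM
  have h3l : DFun n (fun v => 3 * len1 (M v) + M v) := ((DFun.const 3).mul hl).add hM
  have h3M : DFun n (fun v => 3 * M v) := (DFun.const 3).mul hM
  refine DFun.ite (Delta0.ltFun hk hl) (dfun_fb hM hπ hk) ?_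
  refine DFun.ite (Delta0.ltFun hk (hl.add hM)) (h3M.add (hk.sub hl)) ?_
  refine DFun.ite (Delta0.ltFun hk h2l)
    (dfun_fb hM hπ ((h2l.sub (DFun.const 1)).sub hk)) ?_
  exact DFun.ite (Delta0.ltFun hk h3l)
    (h3M.add (dfun_fb hM hπ ((h3l.sub (DFun.const 1)).sub hk))) (DFun.const 1)

theorem dfun_dif {n : ℕ} {p j : (Fin n → ℕ) → ℕ} {α β : (Fin n → ℕ) → ℕ → ℕ} (hp : DFun n p)
    (hα : ∀ r : (Fin n → ℕ) → ℕ, DFun n r → DFun n (fun v => α v (r v)))
    (hβ : ∀ r : (Fin n → ℕ) → ℕ, DFun n r → DFun n (fun v => β v (r v)))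
    (hj : DFun n j) : DFun n (fun v => dif (p v) (α v) (β v) (j v)) := by
  unfold dif
  exact DFun.mod' ((hβ _ hj).add (hp.sub (hα _ hj))) hp

theorem dfun_ent {n : ℕ} {p G J j r : (Fin n → ℕ) → ℕ} {α β : (Fin n → ℕ) → ℕ → ℕ}
    (hp : DFun n p) (hG : DFun n G) (hJ : DFun n J)
    (hα : ∀ r : (Fin n → ℕ) → ℕ, DFun n r → DFun n (fun v => α v (r v)))
    (hβ : ∀ r : (Fin n → ℕ) → ℕ, DFun n r → DFun n (fun v => β v (r v)))
    (hj : DFun n j) (hr : DFun n r) :
    DFun n (fun v => ent (p v) (G v) (J v) (α v) (β v) (j v) (r v)) := by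
  unfold ent
  have hd := dfun_dif hp hα hβ hj
  have hm := DFun.minv hp hd
  refine DFun.ite (Delta0.eqFun hr (DFun.const 0)) hm ?_
  refine DFun.ite (Delta0.eqFun hr (DFun.const 1)) (hp.sub hd) ?_
  refine DFun.ite (Delta0.eqFun hr (DFun.const 2))
    ((((hG.add (hp.sub (hα _ hj))).mul hm).mul hm).add (hp.sub hm)) ?_
  refine DFun.ite (Delta0.eqFun hr (DFun.const 3)) hd ?_
  refine DFun.ite (Delta0.eqFun hr (DFun.const 4)) (hp.sub hm) ?_
  have hj1 : DFun n (fun v => j v + 1) := hj.add (DFun.const 1)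
  exact DFun.ite (Delta0.ltFun hj1 hJ) (hG.add (hp.sub (hβ _ hj1))) hG

theorem dfun_coef {n : ℕ} {p G J t : (Fin n → ℕ) → ℕ} {α β : (Fin n → ℕ) → ℕ → ℕ}
    (hp : DFun n p) (hG : DFun n G) (hJ : DFun n J)
    (hα : ∀ r : (Fin n → ℕ) → ℕ, DFun n r → DFun n (fun v => α v (r v)))
    (hβ : ∀ r : (Fin n → ℕ) → ℕ, DFun n r → DFun n (fun v => β v (r v)))
    (ht : DFun n t) :
    DFun n (fun v => coef (p v) (G v) (J v) (α v) (β v) (t v)) := by
  unfold coef
  have ht1 : DFun n (fun v => t v - 1) := ht.sub (DFun.const 1)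
  have hd : DFun n (fun v => (t v - 1) / 6) := ht1.div (DFun.const 5)
  have hr : DFun n (fun v => (t v - 1) % 6) := ht1.mod (DFun.const 5)
  refine DFun.mod' ?_ hp
  refine DFun.ite (Delta0.eqFun ht (DFun.const 0)) (hp.sub (hβ _ (DFun.const 0))) ?_
  exact DFun.ite (Delta0.ltFun hd hJ) (dfun_ent hp hG hJ hα hβ hd hr) (DFun.const 0)

/-- The entries for the Euler tour of a regressive map, with `M = z + 1`. -/
theorem DFun.coefTour {f : ℕ → ℕ} (hf : DFun 1 (fun v => f (v 0))) {n : ℕ}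
    {p z T t : (Fin n → ℕ) → ℕ} (hp : DFun n p) (hz : DFun n z) (hT : DFun n T) (ht : DFun n t) :
    DFun n (fun v => coef (p v + 1) (2 * (6 * (z v + 1))) (len (z v + 1)) (pa (z v + 1) (T v))
      (pb (z v + 1) (tour f (z v))) (t v)) := by
  have hM : DFun n (fun v => z v + 1) := hz.add (DFun.const 1)
  refine dfun_coef (p := fun v => p v + 1) (G := fun v => 2 * (6 * (z v + 1)))
    (J := fun v => len (z v + 1)) (α := fun v => pa (z v + 1) (T v))
    (β := fun v => pb (z v + 1) (tour f (z v))) (hp.add (DFun.const 1))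
    ((DFun.const 2).mul ((DFun.const 6).mul hM)) (dfun_len hM) ?_ ?_ ht
  · intro r hr
    exact dfun_pa hM hT hr
  · intro r hr
    refine dfun_pb (π := fun v => tour f (z v)) hM ?_ hr
    intro s hs
    exact Grz.DFun.tour hf hz hs

end Pool.Agent.InvCF
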