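import Mathlib
import Pool.Agent.InvCF.Def
import Pool.Agent.Grz.Matrices

/-!
The continued fractions are computed in `E2`.
-/

set_option autoImplicit false

namespace Pool.Agent.InvCF

open Pool.Agent.Grz

private theorem minv_val {p : ℕ} (hp : p.Prime) (x : ZMod p) : minv p x.val = (x⁻¹).val := by
  classical
  haveI : Fact p.Prime := ⟨hp⟩
  unfold minv
  rcases eq_or_ne x 0 with rfl | hx
  · rw [dif_neg]
    · simp
    · rintro ⟨w, -, hw⟩
      simp at hw
  · have hex : ∃ w, w < p ∧ w * x.val % p = 1 := by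
      refine ⟨(x⁻¹).val, ZMod.val_lt _, ?_⟩
      rw [← ZMod.val_mul, inv_mul_cancel₀ hx, ZMod.val_one]
    rw [dif_pos hex]
    obtain ⟨h1, h2⟩ := Nat.find_spec hex
    have h3 : ((Nat.find hex : ℕ) : ZMod p) * x = 1 := by
      have := congrArg (fun k : ℕ => (k : ZMod p)) h2
      simpa using this
    have h4 : ((Nat.find hex : ℕ) : ZMod p) = x⁻¹ := eq_inv_of_mul_eq_one_left h3
    rw [← h4, ZMod.val_natCast, Nat.mod_eq_of_lt h1]

theorem cf_e2 {n : ℕ} {p : (Fin n → ℕ) → ℕ} {b : (Fin n → ℕ) → ℕ → ℕ} (hp : DFun n p)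
    (hpp : ∀ v, (p v).Prime) (hb : DFun (n + 1) (fun w => b (fun i => w i.succ) (w 0))) :
    E2 (n + 1) (fun w => (cf (p (fun i => w i.succ)) (b (fun i => w i.succ)) (w 0)).val) := by
  have h1 : DFun (n + 2) (fun u => (b (fun i => u i.succ.succ) (u 1) +
      minv (p (fun i => u i.succ.succ)) (u 0)) % (p (fun i => u i.succ.succ) - 1 + 1)) :=
    (hb.weak.add (DFun.minv hp.weak.weak (DFun.proj 0))).mod (hp.weak.weak.sub (DFun.const 1))
  have h2 := E2.rec' (n := n) (G := fun _ => 0)
    (H := fun u t v => (b v t + minv (p v) u) % (p v - 1 + 1)) (B := fun _ v => p v)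
    (F := fun t v => (cf (p v) (b v) t).val) (E2.zero n) h1.e2 hp.weak.e2 (by
      intro t v
      haveI : Fact (p v).Prime := ⟨hpp v⟩
      exact (ZMod.val_lt _).le) (by
      intro v
      simp [cf]) (by
      intro t v
      haveI : Fact (p v).Prime := ⟨hpp v⟩
      have h3 := (hpp v).one_lt
      rw [Nat.sub_add_cancel h3.le, minv_val (hpp v)]
      simp only [cf]
      rw [ZMod.val_add, ZMod.val_natCast, Nat.mod_add_mod])
  exact h2

end Pool.Agent.InvCF
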