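import Mathlib
import Pool.Agent.InvCF.Prog
import Pool.Agent.InvCF.Sched
import Pool.Agent.InvCF.Upper
import Pool.Agent.Grz.NormalForm
import Pool.Agent.Grz.Split

/-!
Every predicate in `E2Star` is decided by continued fractions modulo a prime.
-/

set_option autoImplicit false

namespace Pool.Agent.InvCF

open Pool.Agent.Grz MvPolynomial

/-- The entries of the continued fraction for the Euler tour of `f` on `[0, z]`. -/
noncomputable def ctf (f : ℕ → ℕ) (p z T t : ℕ) : ℕ :=
  coef p (2 * (6 * (z + 1))) (len (z + 1)) (pa (z + 1) T) (pb (z + 1) (tour f z)) t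

theorem ctf_lt {f : ℕ → ℕ} {p z T t : ℕ} (hp : 0 < p) : ctf f p z T t < p := by
  unfold ctf coef
  exact Nat.mod_lt _ hp

theorem len_eq (M : ℕ) : 6 * len M + 1 = 36 * M ^ 2 + 24 * M + 7 := by
  unfold len len1; ring

theorem core {n : ℕ} {R : (Fin n → ℕ) → Prop} (hR : E2Star n R) :
    ∃ (f : ℕ → ℕ) (g : (Fin n → ℕ) → ℕ) (Q : MvPolynomial (Fin n) ℕ),
      DFun 1 (fun v => f (v 0)) ∧ DFun n g ∧
      ∀ v p t, p.Prime → 18 * (2 * MvPolynomial.eval v Q + 2) < p →
        36 * (2 * MvPolynomial.eval v Q + 2) ^ 2 + 24 * (2 * MvPolynomial.eval v Q + 2) + 7 ≤ t →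
        ((R v → cf p (ctf f p (2 * MvPolynomial.eval v Q + 1) (2 * g v)) t = 1) ∧
        (¬ R v → cf p (ctf f p (2 * MvPolynomial.eval v Q + 1) (2 * g v)) t = 0)) := by
  obtain ⟨f, g, h0, h1, h2, hf, hg, hg2, hRf⟩ := hR.normalForm
  obtain ⟨Q, hQ⟩ := hg.bound
  refine ⟨f, g, Q, hf, hg, ?_⟩
  intro v p t hp hpM ht
  have hle : ∀ x, f x ≤ x := regressive_le h0 h1 h2
  set z := 2 * MvPolynomial.eval v Q + 1 with hz
  have hzM : 2 * MvPolynomial.eval v Q + 2 = z + 1 := by omega
  rw [hzM] at hpM ht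
  have hgQ := hQ v
  have hg2v := hg2 v
  have hT : 2 * g v < z + 1 := by omega
  have hm : ∀ x, x < z + 1 → tour f z x < z + 1 := by
    intro x hx
    have := tour_mapsTo hle z (show x ∈ Set.Iic z from by simp; omega)
    simp only [Set.mem_Iic] at this
    omega
  have hi : ∀ x y, x < z + 1 → y < z + 1 → tour f z x = tour f z y → x = y :=
    fun x y _ _ h => tour_injective hle z h
  have hS : ∀ j, j < len (z + 1) → pa (z + 1) (2 * g v) j < 6 * (z + 1) ∧
      pb (z + 1) (tour f z) j < 6 * (z + 1) ∧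
      pa (z + 1) (2 * g v) j ≠ pb (z + 1) (tour f z) j := fun j hj => prog_lt hm hT hj
  have hlen : 6 * len (z + 1) + 1 ≤ t := by rw [len_eq]; exact ht
  have hJ : 0 < len (z + 1) := by unfold len; omega
  obtain ⟨r0, r1⟩ := run_prog hm hi hT (by omega)
  have hreach := reach_tour_iff (f := f) hle (z := z) (x := g v) (r := 0) (by omega) h0
  have hcase : (∃ t, (tour f z)^[t] 0 = 2 * g v) ↔ ∃ t, f^[t] (g v) = 0 := hreach
  constructor
  · intro hRv
    have hno : ¬ ∃ t, (tour f z)^[t] 0 = 2 * g v := by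
      rw [hcase]
      intro h
      exact regressive_excl h0 h1 _ h ((hRf v).mp hRv)
    have hr := r1 hno
    have := cf_coef hp hJ hS (by omega) (by rw [hr]) hlen
    rw [hr] at this
    unfold ctf
    rw [this]; simp
  · intro hRv
    have hyes : ∃ t, (tour f z)^[t] 0 = 2 * g v := by
      rw [hcase]
      rcases regressive_ends h2 (g v) with h | h
      · exact h
      · exact absurd ((hRf v).mpr h) hRv
    have hr := r0 hyes
    have := cf_coef hp hJ hS (by omega) (by rw [hr]; omega) hlen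
    rw [hr] at this
    unfold ctf
    rw [this]; simp

end Pool.Agent.InvCF
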